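import Pool.Agent.Helper57.QZ.Stmts2

/-! Row WT of the second sheet of QZ: the truncated weight against the exponential. -/

set_option autoImplicit false

namespace Pool.Agent.Helper57.QZ

open MeasureTheory Set Filter Topology

namespace WTr

theorem tail {a : ℝ} (ha : 0 ≤ a) (n : ℕ) :
    Real.exp a - ∑ m ∈ Finset.range n, a ^ m / (m.factorial : ℝ) ≤
      (1 / 4) ^ n * Real.exp (4 * a) := by
  have h1 : HasSum (fun m : ℕ => a ^ m / (m.factorial : ℝ)) (Real.exp a) := by
    rw [Real.exp_eq_exp_ℝ]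
    exact NormedSpace.expSeries_div_hasSum_exp a
  have h2 : HasSum (fun m : ℕ => (4 * a) ^ m / (m.factorial : ℝ)) (Real.exp (4 * a)) := by
    rw [Real.exp_eq_exp_ℝ]
    exact NormedSpace.expSeries_div_hasSum_exp (4 * a)
  have h1' := (hasSum_nat_add_iff' n).2 h1
  have h2' := ((hasSum_nat_add_iff' n).2 h2).mul_left ((1 / 4 : ℝ) ^ n)
  refine (hasSum_le (fun m => ?_) h1' h2').trans ?_
  · have e : (1 / 4 : ℝ) ^ n * ((4 * a) ^ (m + n) / ((m + n).factorial : ℝ)) =
        4 ^ m * (a ^ (m + n) / ((m + n).factorial : ℝ)) := by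
      rw [mul_pow, pow_add 4 m n]
      have : (1 / 4 : ℝ) ^ n * 4 ^ n = 1 := by
        rw [← mul_pow]
        norm_num
      calc (1 / 4 : ℝ) ^ n * (4 ^ m * 4 ^ n * a ^ (m + n) / ((m + n).factorial : ℝ)) =
            ((1 / 4 : ℝ) ^ n * 4 ^ n) * (4 ^ m * (a ^ (m + n) / ((m + n).factorial : ℝ))) := by ring
        _ = _ := by rw [this, one_mul]
    show a ^ (m + n) / ((m + n).factorial : ℝ) ≤
      (1 / 4 : ℝ) ^ n * ((4 * a) ^ (m + n) / ((m + n).factorial : ℝ))
    rw [e]
    exact le_mul_of_one_le_left (by positivity) (one_le_pow₀ (by norm_num))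
  · refine mul_le_mul_of_nonneg_left ?_ (by positivity)
    have : 0 ≤ ∑ m ∈ Finset.range n, (4 * a) ^ m / (m.factorial : ℝ) :=
      Finset.sum_nonneg fun m _ => by positivity
    linarith

theorem ek1 (k : ℕ) (x : ℝ) : |Ek k x - Real.exp x| ≤ (1 / 4) ^ (k + 1) * Real.exp (4 * |x|) := by
  have h := Complex.norm_exp_sub_sum_le_exp_norm_sub_sum (x : ℂ) (k + 1)
  have e : Complex.exp (x : ℂ) - ∑ m ∈ Finset.range (k + 1), (x : ℂ) ^ m / (m.factorial : ℂ) =
      ((Real.exp x - Ek k x : ℝ) : ℂ) := by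
    unfold Ek
    push_cast
    rfl
  rw [e, Complex.norm_real, Complex.norm_real, Real.norm_eq_abs, Real.norm_eq_abs,
    abs_sub_comm] at h
  exact h.trans (tail (abs_nonneg x) (k + 1))

theorem ek2 (k : ℕ) (x : ℝ) : |Ek k x| ≤ Real.exp |x| := by
  unfold Ek
  refine (Finset.abs_sum_le_sum_abs _ _).trans ?_
  refine le_trans (le_of_eq ?_) (Real.sum_le_exp_of_nonneg (abs_nonneg x) (k + 1))
  refine Finset.sum_congr rfl fun j _ => ?_
  rw [abs_div, abs_pow, Nat.abs_cast]

theorem ek3 (k : ℕ) (x : ℝ) :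
    |Ek k x ^ 2 - Real.exp (2 * x)| ≤ 1 / 2 * (1 / 4) ^ k * Real.exp (6 * |x|) := by
  have h1 := ek1 k x
  have h2 : |Ek k x + Real.exp x| ≤ 2 * Real.exp |x| := by
    refine (abs_add_le _ _).trans ?_
    rw [Real.abs_exp]
    have := ek2 k x
    have := Real.exp_le_exp.2 (le_abs_self x)
    linarith
  have e : Ek k x ^ 2 - Real.exp (2 * x) = (Ek k x - Real.exp x) * (Ek k x + Real.exp x) := by
    rw [two_mul, Real.exp_add]
    ring
  rw [e, abs_mul]
  calc |Ek k x - Real.exp x| * |Ek k x + Real.exp x| ≤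
        ((1 / 4) ^ (k + 1) * Real.exp (4 * |x|)) * (2 * Real.exp |x|) :=
        mul_le_mul h1 h2 (abs_nonneg _) (by positivity)
    _ = 1 / 2 * (1 / 4) ^ k * (Real.exp (4 * |x|) * Real.exp |x|) := by
        rw [pow_succ]
        ring
    _ ≤ 1 / 2 * (1 / 4) ^ k * Real.exp (6 * |x|) := by
        refine mul_le_mul_of_nonneg_left ?_ (by positivity)
        rw [← Real.exp_add]
        refine Real.exp_le_exp.2 ?_
        have := abs_nonneg x
        linarith

theorem expm {y : ℕ} (h1 : ST_PR0) (h2 : ST_ROT) (c : Pr y → ℝ) (α : ℝ) :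
    ∫ φ, Real.exp (∑ p : Pr y, c p * Real.cos (φ p + α)) ∂tor y =
      Real.exp (∑ p : Pr y, ell (c p)) := by
  have hc : Continuous fun φ : Pr y → ℝ => Real.exp (∑ p : Pr y, c p * Real.cos (φ p)) :=
    Real.continuous_exp.comp (continuous_finsetSum _ fun p _ =>
      continuous_const.mul (Real.continuous_cos.comp (continuous_apply p)))
  have h := h2 y α (fun φ => Real.exp (∑ p : Pr y, c p * Real.cos (φ p))) hc fun φ p => by
    show Real.exp _ = Real.exp _
    congr 1
    refine Finset.sum_congr rfl fun q _ => ?_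
    rcases eq_or_ne q p with h | h
    · rw [h, Function.update_self, Real.cos_add_two_pi]
    · rw [Function.update_of_ne h]
  exact h.trans (h1 y c)

theorem intg {y : ℕ} (c : Pr y → ℝ) (α : ℝ) :
    Integrable (fun φ : Pr y → ℝ => Real.exp (∑ p : Pr y, c p * Real.cos (φ p + α))) (tor y) := by
  have hc : Continuous fun φ : Pr y → ℝ => Real.exp (∑ p : Pr y, c p * Real.cos (φ p + α)) :=
    Real.continuous_exp.comp (continuous_finsetSum _ fun p _ =>
      continuous_const.mul (Real.continuous_cos.comp ((continuous_apply p).add continuous_const)))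
  refine Integrable.of_bound hc.aestronglyMeasurable
    (Real.exp (∑ p : Pr y, |c p|)) (Eventually.of_forall fun φ => ?_)
  simp only [Real.norm_eq_abs, Real.abs_exp]
  refine Real.exp_le_exp.2 (Finset.sum_le_sum fun p _ => ?_)
  refine (le_abs_self _).trans ?_
  rw [abs_mul]
  exact mul_le_of_le_one_right (abs_nonneg _) (Real.abs_cos_le_one _)

end WTr

theorem wt_of (h1 : ST_PR0) (h2 : ST_ROT) : ST_WT := by
  intro y k σ α s Γ G hs hσ hG hGb
  have hΓ : 0 ≤ Γ := (abs_nonneg _).trans (hGb fun _ => 0)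
  obtain ⟨c, hc⟩ : ∃ c : Pr y → ℝ, c = fun p : Pr y => 3 * (s * aa σ p) := ⟨_, rfl⟩
  have hI : ∀ β, ∫ φ, Real.exp (∑ p : Pr y, c p * Real.cos (φ p + β)) ∂tor y =
      Real.exp (∑ p : Pr y, ell (3 * (s * aa σ p))) := fun β => by
    rw [WTr.expm h1 h2 c β, hc]
  have hP : ∀ φ : Pr y → ℝ, ∑ p : Pr y, c p * Real.cos (φ p + α) = 3 * s * Sa y σ α φ := fun φ => by
    unfold Sa
    rw [hc, Finset.mul_sum]
    exact Finset.sum_congr rfl fun p _ => by ring
  have hN : ∀ φ : Pr y → ℝ, ∑ p : Pr y, c p * Real.cos (φ p + (α + Real.pi)) =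
      -(3 * s * Sa y σ α φ) := fun φ => by
    rw [← hP, ← Finset.sum_neg_distrib]
    refine Finset.sum_congr rfl fun p _ => ?_
    rw [← add_assoc, Real.cos_add_pi]
    ring
  obtain ⟨g, hg⟩ : ∃ g : (Pr y → ℝ) → ℝ, g = fun φ => (Γ * (1 / 2 * (1 / 4) ^ k)) *
      (Real.exp (∑ p : Pr y, c p * Real.cos (φ p + α)) +
        Real.exp (∑ p : Pr y, c p * Real.cos (φ p + (α + Real.pi)))) := ⟨_, rfl⟩
  have hgi : Integrable g (tor y) := by
    rw [hg]
    exact ((WTr.intg c α).add (WTr.intg c (α + Real.pi))).const_mul _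
  have hle := norm_integral_le_of_norm_le (f := fun φ =>
    (Ek k (s / 2 * Sa y σ α φ) ^ 2 - Real.exp (s * Sa y σ α φ)) * G φ) hgi
    (Eventually.of_forall fun φ => ?_)
  · rw [Real.norm_eq_abs] at hle
    refine hle.trans (le_of_eq ?_)
    rw [hg, integral_const_mul, integral_add (WTr.intg c α) (WTr.intg c (α + Real.pi)), hI, hI]
    ring
  · rw [Real.norm_eq_abs, abs_mul, hg]
    have k1 := WTr.ek3 k (s / 2 * Sa y σ α φ)
    rw [show 2 * (s / 2 * Sa y σ α φ) = s * Sa y σ α φ by ring] at k1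
    have k2 : Real.exp (6 * |s / 2 * Sa y σ α φ|) ≤
        Real.exp (∑ p : Pr y, c p * Real.cos (φ p + α)) +
        Real.exp (∑ p : Pr y, c p * Real.cos (φ p + (α + Real.pi))) := by
      rw [hP, hN]
      rcases abs_cases (s / 2 * Sa y σ α φ) with ⟨h, _⟩ | ⟨h, _⟩
      · rw [h, show 6 * (s / 2 * Sa y σ α φ) = 3 * s * Sa y σ α φ by ring]
        have := Real.exp_pos (-(3 * s * Sa y σ α φ))
        linarith
      · rw [h, show 6 * -(s / 2 * Sa y σ α φ) = -(3 * s * Sa y σ α φ) by ring]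
        have := Real.exp_pos (3 * s * Sa y σ α φ)
        linarith
    have k3 := k1.trans (mul_le_mul_of_nonneg_left k2 (by positivity))
    calc |Ek k (s / 2 * Sa y σ α φ) ^ 2 - Real.exp (s * Sa y σ α φ)| * |G φ| ≤
          (1 / 2 * (1 / 4) ^ k * (Real.exp (∑ p : Pr y, c p * Real.cos (φ p + α)) +
            Real.exp (∑ p : Pr y, c p * Real.cos (φ p + (α + Real.pi))))) * Γ :=
          mul_le_mul k3 (hGb φ) (abs_nonneg _) (by positivity)
      _ = _ := by ring

end Pool.Agent.Helper57.QZ
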